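import Mathlib
import Pool.Agent.Helper35.AG.Basic
import Pool.Agent.Helper58.FH.Av

/-!
# Entropy of a measure most of whose points avoid one scale
-/

set_option autoImplicit false
open MeasureTheory Filter Topology Finset
open scoped ENNReal

namespace Pool.Agent.Helper40.IP

open Helper35.AG (Tor idx ent)

theorem norm_coe_sub_le (z w : ℝ) : ‖((z : Tor) - (w : Tor))‖ ≤ |z - w| := by
  rw [← AddCircle.coe_sub, AddCircle.norm_eq]
  have h := round_le (z - w) 0
  simpa using h

/-- a representative of minimal absolute value -/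
theorem exists_min_rep (x : Tor) : ∃ z : ℝ, (z : Tor) = x ∧ |z| = ‖x‖ := by
  obtain ⟨z, h1, h2⟩ := Helper58.FH.exists_rep x
  exact ⟨z, h1, h2.symm ▸ rfl⟩

/-- the index of a point close to zero -/
theorem idx_small (K : ℕ) (w : Tor) (hw : 2 ^ K * ‖w‖ ≤ 1) :
    idx K w = 0 ∨ idx K w = 1 ∨ idx K w = 2 ^ K - 1 := by
  obtain ⟨z, hz, hzn⟩ := exists_min_rep w
  have hp : (0 : ℝ) < 2 ^ K := by positivity
  rw [← hzn] at hw
  have hp1 : (1 : ℝ) ≤ 2 ^ K := one_le_pow₀ (by norm_num)
  have hz1 : |z| ≤ 1 := by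
    nlinarith [abs_nonneg z]
  have hzn2 : |z| ≤ 1 / 2 := by
    rw [hzn]
    have := AddCircle.norm_le_half_period (1 : ℝ) (x := w) one_ne_zero
    simpa using this
  rcases le_or_gt 0 z with h0 | h0
  · rw [abs_of_nonneg h0] at hw hzn2
    have h1 := Helper35.AG.idx_coe K h0 (by linarith)
    rw [← hz, h1]
    have h2 : ⌊(2 : ℝ) ^ K * z⌋₊ ≤ 1 := by
      have := Nat.floor_le_floor hw
      simpa using this
    omega
  · rw [abs_of_neg h0] at hw hzn2
    have e : ((z + 1 : ℝ) : Tor) = w := by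
      rw [AddCircle.coe_add, hz]
      have : ((1 : ℝ) : Tor) = 0 := AddCircle.coe_period (1 : ℝ)
      rw [this, add_zero]
    have h1 := Helper35.AG.idx_coe K (u := z + 1) (by linarith) (by linarith)
    rw [← e, h1]
    right; right
    have hpn : 1 ≤ 2 ^ K := Nat.one_le_two_pow
    rw [Nat.floor_eq_iff (by nlinarith)]
    push_cast [hpn]
    constructor <;> nlinarith

/-- At most six cells meet a ball of radius one cell. -/
theorem card_near (K : ℕ) (b : Tor) (S : Finset ℕ)
    (hS : ∀ i ∈ S, ∃ x : Tor, idx K x = i ∧ 2 ^ K * ‖x - b‖ ≤ 1) : S.card ≤ 6 := by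
  classical
  set R : Finset (ℕ × ℕ) := {0, 1, 2 ^ K - 1} ×ˢ {0, 1} with hR
  have hsub : S ⊆ R.image fun r => (r.1 + idx K b + r.2) % 2 ^ K := by
    intro i hi
    obtain ⟨x, hx, hb⟩ := hS i hi
    rw [Finset.mem_image]
    have h1 := idx_small K (x - b) hb
    have h2 := Helper35.AG.idx_add K (x - b) b
    rw [sub_add_cancel, hx] at h2
    have hr : idx K (x - b) ∈ ({0, 1, 2 ^ K - 1} : Finset ℕ) := by
      simp only [Finset.mem_insert, Finset.mem_singleton]
      exact h1
    rcases h2 with h | h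
    · refine ⟨(idx K (x - b), 0), ?_, ?_⟩
      · rw [hR, Finset.mem_product]
        exact ⟨hr, by simp⟩
      · simp only [add_zero]
        exact h.symm
    · refine ⟨(idx K (x - b), 1), ?_, ?_⟩
      · rw [hR, Finset.mem_product]
        exact ⟨hr, by simp⟩
      · exact h.symm
  refine (Finset.card_le_card hsub).trans (Finset.card_image_le.trans ?_)
  rw [hR, Finset.card_product]
  have h1 : ({0, 1, 2 ^ K - 1} : Finset ℕ).card ≤ 3 := Finset.card_le_three
  have h2 : ({0, 1} : Finset ℕ).card ≤ 2 := Finset.card_le_two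
  calc _ ≤ 3 * 2 := Nat.mul_le_mul h1 h2
    _ = 6 := by norm_num

/-- Gibbs' inequality with codes. -/
theorem ent_le_of_code (μ : Measure Tor) [IsProbabilityMeasure μ] (K : ℕ) {ι : Type*}
    (s : Finset ι) (code : Tor → ι) (p : ι → ℝ) (hp0 : ∀ j ∈ s, 0 < p j)
    (hp1 : ∑ j ∈ s, p j ≤ 1) (hcode : ∀ x, code x ∈ s)
    (hnear : ∀ j ∈ s, ∀ S : Finset ℕ, (∀ i ∈ S, ∃ x, idx K x = i ∧ code x = j) → S.card ≤ 6)
    (G : Tor → ℝ) (hG : ∀ x, - Real.log (p (code x)) ≤ G x) (hGi : Integrable G μ) :
    ent μ K ≤ Real.log 6 + ∫ x, G x ∂μ := by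
  classical
  set A : ℕ → Set Tor := fun i => {x | idx K x = i} with hA
  have hAm : ∀ i, MeasurableSet (A i) := fun i => Helper35.AG.measurableSet_idx K i
  set ν : ℕ → ℝ := fun i => (∑ j ∈ s.filter fun j => ∃ x, idx K x = i ∧ code x = j, p j) / 6
    with hν
  have hν0 : ∀ i, 0 ≤ ν i := fun i => div_nonneg (Finset.sum_nonneg fun j hj =>
    (hp0 j (Finset.mem_filter.1 hj).1).le) (by norm_num)
  have hνs : ∑ i ∈ range (2 ^ K), ν i ≤ 1 := by
    rw [hν]
    simp only
    rw [← Finset.sum_div, div_le_iff₀ (by norm_num)]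
    have e : ∑ i ∈ range (2 ^ K), ∑ j ∈ s.filter (fun j => ∃ x, idx K x = i ∧ code x = j), p j =
        ∑ j ∈ s, ∑ i ∈ (range (2 ^ K)).filter (fun i => ∃ x, idx K x = i ∧ code x = j), p j := by
      simp only [Finset.sum_filter]
      rw [Finset.sum_comm]
    rw [e]
    have h1 : ∀ j ∈ s, ∑ i ∈ (range (2 ^ K)).filter (fun i => ∃ x, idx K x = i ∧ code x = j), p j
        ≤ 6 * p j := by
      intro j hj
      rw [Finset.sum_const, nsmul_eq_mul]
      have h2 := hnear j hj ((range (2 ^ K)).filter (fun i => ∃ x, idx K x = i ∧ code x = j))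
        (fun i hi => (Finset.mem_filter.1 hi).2)
      have h3 : (((range (2 ^ K)).filter (fun i => ∃ x, idx K x = i ∧ code x = j)).card : ℝ) ≤ 6 := by
        exact_mod_cast h2
      exact mul_le_mul_of_nonneg_right h3 (hp0 j hj).le
    refine (Finset.sum_le_sum h1).trans ?_
    rw [← Finset.mul_sum]
    linarith
  have hGi' : Integrable (fun x => Real.log 6 + G x) μ := (integrable_const _).add hGi
  have hle : ∀ i ∈ range (2 ^ K), Real.negMulLog (μ.real (A i)) ≤
      (∫ x in A i, (Real.log 6 + G x) ∂μ) + ν i - μ.real (A i) := by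
    intro i _
    rcases eq_or_lt_of_le (measureReal_nonneg (μ := μ) (s := A i)) with h0 | h0
    · rw [← h0]
      have h1 : μ (A i) = 0 := by
        rw [measureReal_def, eq_comm, ENNReal.toReal_eq_zero_iff] at h0
        exact h0.resolve_right (measure_ne_top _ _)
      have h2 : ∫ x in A i, (Real.log 6 + G x) ∂μ = 0 := by
        rw [Measure.restrict_eq_zero.2 h1, integral_zero_measure]
      rw [h2]
      simpa using hν0 i
    · -- every point of the cell bounds the logarithm
      have hx : ∀ x ∈ A i, 0 < ν i ∧ - Real.log (ν i) ≤ Real.log 6 + G x := by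
        intro x hx
        have hjs := hcode x
        have hpj := hp0 _ hjs
        have h1 : p (code x) ≤
            ∑ j ∈ s.filter (fun j => ∃ x, idx K x = i ∧ code x = j), p j :=
          Finset.single_le_sum (f := p) (fun j hj => (hp0 j (Finset.mem_filter.1 hj).1).le)
            (Finset.mem_filter.2 ⟨hjs, x, hx, rfl⟩)
        have h2 : p (code x) / 6 ≤ ν i := by
          rw [hν]
          simp only
          gcongr
        have h3 : 0 < p (code x) / 6 := by positivity
        refine ⟨h3.trans_le h2, ?_⟩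
        have h4 := Real.log_le_log h3 h2
        rw [Real.log_div hpj.ne' (by norm_num)] at h4
        have h5 := hG x
        linarith
      obtain ⟨x0, hx0⟩ : (A i).Nonempty := by
        by_contra hne
        rw [Set.not_nonempty_iff_eq_empty] at hne
        rw [hne] at h0
        simp at h0
      have hνp := (hx x0 hx0).1
      have h5 : μ.real (A i) * (- Real.log (ν i)) ≤ ∫ x in A i, (Real.log 6 + G x) ∂μ := by
        have h6 : ∫ _x in A i, (- Real.log (ν i)) ∂μ ≤ ∫ x in A i, (Real.log 6 + G x) ∂μ := by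
          refine setIntegral_mono_on (integrable_const _) hGi'.integrableOn (hAm i) ?_
          intro x hxA
          exact (hx x hxA).2
        rw [setIntegral_const, smul_eq_mul] at h6
        exact h6
      -- the elementary inequality
      have h7 : Real.negMulLog (μ.real (A i)) ≤
          μ.real (A i) * (- Real.log (ν i)) + ν i - μ.real (A i) := by
        unfold Real.negMulLog
        have h8 := Real.log_le_sub_one_of_pos (div_pos hνp h0)
        rw [Real.log_div hνp.ne' h0.ne'] at h8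
        have h9 := mul_le_mul_of_nonneg_left h8 h0.le
        have h10 : μ.real (A i) * (ν i / μ.real (A i) - 1) = ν i - μ.real (A i) := by
          field_simp
        rw [h10] at h9
        linarith
      linarith
  have hsum := Finset.sum_le_sum hle
  have hint : ∑ i ∈ range (2 ^ K), ∫ x in A i, (Real.log 6 + G x) ∂μ =
      Real.log 6 + ∫ x, G x ∂μ := by
    have hU : (⋃ i ∈ range (2 ^ K), A i) = Set.univ := by
      ext x
      simp only [Set.mem_iUnion, Set.mem_univ, iff_true]
      exact ⟨idx K x, Finset.mem_range.2 (Helper35.AG.idx_lt K x), rfl⟩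
    rw [← integral_biUnion_finset (range (2 ^ K)) (fun i _ => hAm i) ?_
      (fun i _ => hGi'.integrableOn), hU, setIntegral_univ, integral_add (integrable_const _) hGi]
    · simp
    · intro i _ j _ hij
      rw [Function.onFun, Set.disjoint_left]
      intro x hx hx'
      exact hij (hx.symm.trans hx')
  have hm : ∑ i ∈ range (2 ^ K), μ.real (A i) = 1 := Helper35.AG.sum_cells μ K
  unfold ent
  rw [Finset.sum_sub_distrib, Finset.sum_add_distrib, hint, hm] at hsum
  linarith


/-- Colourings of a set without two points at distance about `2 ^ (- q)` for `q` outside `B`. -/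
theorem exists_color (q0 : ℕ) (B : Finset ℕ) (E : Set Tor) (j : ℕ)
    (h : ∀ q ∈ Finset.Ico q0 (q0 + j), q ∉ B → ∀ x ∈ E, ∀ y ∈ E,
      1 / 2 ≤ 2 ^ q * ‖x - y‖ → 2 ^ q * ‖x - y‖ ≤ 1 → False) :
    ∃ f : Tor → ℕ, (∀ x, f x < 2 ^ q0 * 5 ^ (B ∩ Finset.Ico q0 (q0 + j)).card) ∧
      ∀ x ∈ E, ∀ y ∈ E, f x = f y → 2 ^ (q0 + j) * ‖x - y‖ ≤ 1 := by
  classical
  induction j with
  | zero =>
    refine ⟨idx q0, fun x => ?_, fun x _ y _ hxy => ?_⟩
    · simpa using Helper35.AG.idx_lt q0 x
    · have h1 := Helper35.AG.norm_sub_le_of_idx hxy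
      have hp : (0 : ℝ) < 2 ^ q0 := by positivity
      have h2 : (2 : ℝ) ^ q0 * ‖x - y‖ ≤ 2 ^ q0 * (1 / 2 ^ q0) := by gcongr
      rw [mul_one_div_cancel hp.ne'] at h2
      simpa using h2
  | succ j ih =>
    obtain ⟨f, hf1, hf2⟩ := ih fun q hq => h q (by
      rw [Finset.mem_Ico] at hq ⊢
      omega)
    have hico : Finset.Ico q0 (q0 + (j + 1)) = insert (q0 + j) (Finset.Ico q0 (q0 + j)) := by
      ext a
      rw [Finset.mem_insert, Finset.mem_Ico, Finset.mem_Ico]
      omega
    have hpow : (2 : ℝ) ^ (q0 + (j + 1)) = 2 * 2 ^ (q0 + j) := by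
      rw [← add_assoc, pow_succ]
      ring
    by_cases hB : q0 + j ∈ B
    · -- split every class
      have hcard : (B ∩ Finset.Ico q0 (q0 + (j + 1))).card =
          (B ∩ Finset.Ico q0 (q0 + j)).card + 1 := by
        rw [hico, Finset.inter_insert_of_mem hB, Finset.card_insert_of_notMem]
        rw [Finset.mem_inter, Finset.mem_Ico]
        omega
      rw [hcard, pow_succ, ← mul_assoc]
      choose rep hrep hrepn using exists_min_rep
      obtain ⟨b, hb⟩ : ∃ b : ℕ → Tor, ∀ x ∈ E, b (f x) ∈ E ∧ f (b (f x)) = f x := by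
        refine ⟨fun c => if h : ∃ y ∈ E, f y = c then h.choose else 0, fun x hx => ?_⟩
        have h1 : ∃ y ∈ E, f y = f x := ⟨x, hx, rfl⟩
        simp only [dif_pos h1]
        exact h1.choose_spec
      set r : Tor → ℕ := fun x => (⌊2 * 2 ^ (q0 + j) * rep (x - b (f x))⌋ + 2).toNat with hr
      have hr5 : ∀ x ∈ E, (r x : ℤ) = ⌊2 * 2 ^ (q0 + j) * rep (x - b (f x))⌋ + 2 ∧ r x < 5 := by
        intro x hx
        have h1 := hf2 x hx _ (hb x hx).1 (hb x hx).2.symm
        rw [← hrepn] at h1
        have h2 : |2 ^ (q0 + j) * rep (x - b (f x))| ≤ 1 := by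
          rw [abs_mul, abs_of_pos (by positivity : (0 : ℝ) < 2 ^ (q0 + j))]
          exact h1
        rw [abs_le] at h2
        have h3 : (-2 : ℤ) ≤ ⌊2 * 2 ^ (q0 + j) * rep (x - b (f x))⌋ := by
          rw [Int.le_floor]
          push_cast
          linarith
        have h4 : ⌊2 * 2 ^ (q0 + j) * rep (x - b (f x))⌋ ≤ (2 : ℤ) := by
          have h5 : ⌊2 * 2 ^ (q0 + j) * rep (x - b (f x))⌋ < (3 : ℤ) := by
            rw [Int.floor_lt]
            push_cast
            linarith
          omega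
        rw [hr]
        simp only
        omega
      refine ⟨fun x => f x * 5 + min (r x) 4, fun x => ?_, fun x hx y hy hxy => ?_⟩
      · have := hf1 x
        have h4 : min (r x) 4 ≤ 4 := min_le_right _ _
        simp only
        omega
      · simp only at hxy
        have h4 : min (r x) 4 ≤ 4 := min_le_right _ _
        have h4' : min (r y) 4 ≤ 4 := min_le_right _ _
        have hff : f x = f y := by omega
        have hrr : r x = r y := by
          have h5 := (hr5 x hx).2
          have h6 := (hr5 y hy).2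
          omega
        have hx1 := (hr5 x hx).1
        have hy1 := (hr5 y hy).1
        rw [hrr, hy1] at hx1
        have hfl : ⌊2 * 2 ^ (q0 + j) * rep (y - b (f y))⌋ =
            ⌊2 * 2 ^ (q0 + j) * rep (x - b (f x))⌋ := by omega
        have h7 := Int.abs_sub_lt_one_of_floor_eq_floor hfl
        rw [← mul_sub, abs_mul, abs_of_pos (by positivity : (0 : ℝ) < 2 * 2 ^ (q0 + j)),
          abs_sub_comm] at h7
        have h8 : ‖x - y‖ ≤ |rep (x - b (f x)) - rep (y - b (f y))| := by
          have e : x - y = ((rep (x - b (f x)) : ℝ) : Tor) - ((rep (y - b (f y)) : ℝ) : Tor) := by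
            rw [hrep, hrep, hff]
            abel
          rw [e]
          exact norm_coe_sub_le _ _
        rw [hpow]
        exact (mul_le_mul_of_nonneg_left h8 (by positivity)).trans h7.le
    · have hint : B ∩ Finset.Ico q0 (q0 + (j + 1)) = B ∩ Finset.Ico q0 (q0 + j) := by
        rw [hico, Finset.inter_insert_of_notMem hB]
      rw [hint]
      refine ⟨f, hf1, fun x hx y hy hxy => ?_⟩
      have h1 := hf2 x hx y hy hxy
      have h2 := h (q0 + j) (by rw [Finset.mem_Ico]; omega) hB x hx y hy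
      rw [hpow]
      by_contra hcon
      rw [not_le] at hcon
      exact h2 (by linarith) h1

theorem entropy_bound (μ : Measure Tor) [IsProbabilityMeasure μ] (W : ℕ → Set Tor)
    (hW : ∀ q, MeasurableSet (W q)) (q0 : ℕ)
    (h : ∀ q, q0 ≤ q → ∀ x y : Tor, 1 / 2 ≤ 2 ^ q * ‖x - y‖ → 2 ^ q * ‖x - y‖ ≤ 1 →
      x ∈ W q ∨ y ∈ W q) {δ : ℝ} (hδ0 : 0 < δ) (hδ1 : δ < 1)
    (hμ : ∀ q, q0 ≤ q → μ.real (W q) ≤ δ) (K : ℕ) (hK : q0 ≤ K) :
    ent μ K ≤ Real.log 6 + q0 * Real.log 2 +
      K * (δ * (Real.log 5 - Real.log δ) - Real.log (1 - δ)) := by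
  classical
  obtain ⟨j, rfl⟩ := Nat.exists_eq_add_of_le hK
  set S : Finset ℕ := Finset.Ico q0 (q0 + j) with hS
  set Bx : Tor → Finset ℕ := fun x => S.filter fun q => x ∈ W q with hBx
  have hBS : ∀ x, Bx x ⊆ S := fun x => Finset.filter_subset _ _
  -- the colourings
  have hcol : ∀ B : Finset ℕ, ∃ f : Tor → ℕ, B ⊆ S → ((∀ x, f x < 2 ^ q0 * 5 ^ B.card) ∧
      ∀ x, Bx x = B → ∀ y, Bx y = B → f x = f y → 2 ^ (q0 + j) * ‖x - y‖ ≤ 1) := by
    intro B
    obtain ⟨f, hf1, hf2⟩ := exists_color q0 B {x | Bx x = B} j (by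
      intro q hq hqB x hx y hy h1 h2
      have hq0 : q0 ≤ q := (Finset.mem_Ico.1 hq).1
      rcases h q hq0 x y h1 h2 with h3 | h3
      · apply hqB
        have hx' : Bx x = B := hx
        rw [← hx', hBx]
        exact Finset.mem_filter.2 ⟨hq, h3⟩
      · apply hqB
        have hy' : Bx y = B := hy
        rw [← hy', hBx]
        exact Finset.mem_filter.2 ⟨hq, h3⟩)
    refine ⟨f, fun hB => ?_⟩
    rw [Finset.inter_eq_left.2 hB] at hf1
    exact ⟨hf1, fun x hx y hy => hf2 x hx y hy⟩
  choose f hf using hcol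
  -- the codes
  set s : Finset ((_ : Finset ℕ) × ℕ) :=
    S.powerset.sigma fun B => range (2 ^ q0 * 5 ^ B.card) with hs
  set code : Tor → (_ : Finset ℕ) × ℕ := fun x => ⟨Bx x, f (Bx x) x⟩ with hcode
  set p : (_ : Finset ℕ) × ℕ → ℝ := fun c =>
    δ ^ c.1.card * (1 - δ) ^ (S.card - c.1.card) / (2 ^ q0 * 5 ^ c.1.card) with hp
  have h1δ : 0 < 1 - δ := by linarith
  have hpp : ∀ c, 0 < p c := fun c => by
    rw [hp]
    positivity
  have hp1 : ∑ c ∈ s, p c ≤ 1 := by
    rw [hs, Finset.sum_sigma]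
    have e : ∀ B ∈ S.powerset, ∑ c ∈ range (2 ^ q0 * 5 ^ B.card), p ⟨B, c⟩ =
        δ ^ B.card * (1 - δ) ^ (S.card - B.card) := by
      intro B _
      rw [hp]
      simp only
      rw [Finset.sum_const, card_range, nsmul_eq_mul]
      push_cast
      field_simp
    rw [Finset.sum_congr rfl e, Finset.sum_pow_mul_eq_add_pow]
    simp
  have hmem : ∀ x, code x ∈ s := by
    intro x
    rw [hs, Finset.mem_sigma]
    exact ⟨Finset.mem_powerset.2 (hBS x), Finset.mem_range.2 ((hf (Bx x) (hBS x)).1 x)⟩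
  have hnear : ∀ c ∈ s, ∀ T : Finset ℕ, (∀ i ∈ T, ∃ x, idx (q0 + j) x = i ∧ code x = c) →
      T.card ≤ 6 := by
    intro c hc T hT
    rcases T.eq_empty_or_nonempty with h0 | ⟨i0, hi0⟩
    · rw [h0]; simp
    · obtain ⟨x0, -, hx0⟩ := hT i0 hi0
      refine card_near (q0 + j) x0 T fun i hi => ?_
      obtain ⟨x, hx, hxc⟩ := hT i hi
      refine ⟨x, hx, ?_⟩
      have e1 : code x = code x0 := hxc.trans hx0.symm
      rw [hcode] at e1
      simp only [Sigma.mk.injEq, heq_eq_eq] at e1
      have e2 : f (Bx x0) x = f (Bx x0) x0 := by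
        rw [← e1.1]
        exact e1.2.trans (by rw [e1.1])
      exact (hf (Bx x0) (hBS x0)).2 x e1.1 x0 rfl e2
  -- the bound of the logarithm
  set G : Tor → ℝ := fun x => q0 * Real.log 2 - (q0 + j : ℕ) * Real.log (1 - δ) +
    (∑ q ∈ S, (W q).indicator (fun _ => (1 : ℝ)) x) * (Real.log 5 - Real.log δ) with hG
  have hcardB : ∀ x, ((Bx x).card : ℝ) = ∑ q ∈ S, (W q).indicator (fun _ => (1 : ℝ)) x := by
    intro x
    rw [hBx]
    simp only
    rw [Finset.card_filter]
    push_cast
    refine Finset.sum_congr rfl fun q _ => ?_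
    by_cases hq : x ∈ W q
    · simp [hq]
    · simp [hq]
  have hlog1 : Real.log (1 - δ) ≤ 0 := Real.log_nonpos h1δ.le (by linarith)
  have hGle : ∀ x, - Real.log (p (code x)) ≤ G x := by
    intro x
    have hcs : (Bx x).card ≤ S.card := Finset.card_le_card (hBS x)
    have e1 : Real.log (p (code x)) = (Bx x).card * Real.log δ +
        (S.card - (Bx x).card : ℕ) * Real.log (1 - δ) -
          (q0 * Real.log 2 + (Bx x).card * Real.log 5) := by
      rw [hp, hcode]
      simp only
      rw [Real.log_div (by positivity) (by positivity), Real.log_mul (by positivity) (by positivity),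
        Real.log_mul (by positivity) (by positivity), Real.log_pow, Real.log_pow, Real.log_pow,
        Real.log_pow]
    rw [e1, hG]
    simp only
    rw [← hcardB x]
    have e2 : ((S.card - (Bx x).card : ℕ) : ℝ) ≤ ((q0 + j : ℕ) : ℝ) := by
      have : S.card = j := by
        rw [hS, Nat.card_Ico]
        omega
      exact_mod_cast (by omega : S.card - (Bx x).card ≤ q0 + j)
    have e3 := mul_le_mul_of_nonpos_right e2 hlog1
    linarith
  have hindi : ∀ q ∈ S, Integrable ((W q).indicator (fun _ => (1 : ℝ))) μ := fun q _ =>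
    (integrable_const _).indicator (hW q)
  have hsumi : Integrable (fun x => ∑ q ∈ S, (W q).indicator (fun _ => (1 : ℝ)) x) μ :=
    integrable_finsetSum S hindi
  have hGi : Integrable G μ := (integrable_const _).add (hsumi.mul_const _)
  have key := ent_le_of_code μ (q0 + j) s code p (fun c _ => hpp c) hp1 hmem hnear G hGle hGi
  have hint : ∫ x, G x ∂μ = q0 * Real.log 2 - (q0 + j : ℕ) * Real.log (1 - δ) +
      (∑ q ∈ S, μ.real (W q)) * (Real.log 5 - Real.log δ) := by
    rw [hG, integral_add (integrable_const _) (hsumi.mul_const _), integral_const,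
      integral_mul_const, integral_finsetSum S hindi]
    congr 1
    · simp
    · congr 1
      refine Finset.sum_congr rfl fun q _ => ?_
      rw [integral_indicator_const _ (hW q)]
      simp
  have hsum : ∑ q ∈ S, μ.real (W q) ≤ (q0 + j : ℕ) * δ := by
    have h1 : ∑ q ∈ S, μ.real (W q) ≤ ∑ _q ∈ S, δ :=
      Finset.sum_le_sum fun q hq => hμ q (Finset.mem_Ico.1 hq).1
    rw [Finset.sum_const, nsmul_eq_mul] at h1
    refine h1.trans ?_
    gcongr
    rw [hS, Nat.card_Ico]
    omega
  have hpos : 0 ≤ Real.log 5 - Real.log δ := by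
    have h1 := Real.log_nonpos hδ0.le hδ1.le
    have h2 := Real.log_nonneg (by norm_num : (1 : ℝ) ≤ 5)
    linarith
  have h9 := mul_le_mul_of_nonneg_right hsum hpos
  rw [hint] at key
  have e9 : ((q0 + j : ℕ) : ℝ) * (δ * (Real.log 5 - Real.log δ) - Real.log (1 - δ)) =
      (q0 + j : ℕ) * δ * (Real.log 5 - Real.log δ) - (q0 + j : ℕ) * Real.log (1 - δ) := by ring
  rw [e9]
  linarith

end Pool.Agent.Helper40.IP
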