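import Mathlib
import Pool.Agent.Helper75.IP.Defs
import Pool.Agent.Helper58.PW.Meas
import Pool.Agent.Helper40.TMA.Mean

/-!
# The mean ergodic theorem for strips
-/

set_option autoImplicit false
open MeasureTheory Filter Topology Finset
open scoped ENNReal InnerProductSpace ComplexConjugate

namespace Pool.Agent.Helper40.IP

open Helper58.FX (act UU ev ft T sc)
open Helper58.FH (norm_pow_apply)
open Helper58.DW (ll sq)
open Helper58.PW (bav strip bav_strip)

section Hilbert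

variable {H : Type*} [NormedAddCommGroup H] [InnerProductSpace ℂ H] [CompleteSpace H]

/-- the averages of an isometry converge to a fixed vector with the same inner products with the
fixed vectors -/
theorem exists_mean (U : H →ₗᵢ[ℂ] H) (u : H) :
    ∃ g : H, U g = g ∧ (∀ z, U z = z → ⟪z, g⟫_ℂ = ⟪z, u⟫_ℂ) ∧
      Tendsto (fun L : ℕ => ((L : ℂ)⁻¹ • ∑ i ∈ range L, (U ^ i) u)) atTop (𝓝 g) := by
  set f : H →L[ℂ] H := U.toContinuousLinearMap with hf
  have hn : ‖f‖ ≤ 1 := U.norm_toContinuousLinearMap_le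
  have h1 := f.tendsto_birkhoffAverage_orthogonalProjection hn u
  set K := f.eqLocus (1 : H →L[ℂ] H) with hK
  refine ⟨(K.orthogonalProjectionOnto u : H), ?_, ?_, ?_⟩
  · have h2 := (K.orthogonalProjectionOnto u).2
    exact h2
  · intro z hz
    have hzK : z ∈ K := by
      show f z = (1 : H →L[ℂ] H) z
      exact hz
    exact Submodule.inner_orthogonalProjectionOnto_eq_of_mem_left (⟨z, hzK⟩ : K) u
  · refine h1.congr fun L => ?_
    unfold birkhoffAverage birkhoffSum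
    congr 1
    refine Finset.sum_congr rfl fun i _ => ?_
    have e : ∀ i : ℕ, f^[i] u = (U ^ i) u := by
      intro i
      induction i with
      | zero => rfl
      | succ i ih =>
        rw [Function.iterate_succ_apply', ih, pow_succ']
        rfl
    exact e i

theorem strip_avg {U V : H →ₗᵢ[ℂ] H} (hUV : Commute U V) (u : H) :
    ∃ h : H, U h = h ∧ V h = h ∧ (∀ z, U z = z → V z = z → ⟪z, h⟫_ℂ = ⟪z, u⟫_ℂ) ∧
      ∀ ε : ℝ, 0 < ε → ∃ L1 : ℕ, ∀ L, L1 ≤ L → ∃ M1 : ℕ, ∀ M, M1 ≤ M → ∀ a : ℕ → ℕ,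
        ‖(((L : ℂ) * (M : ℂ))⁻¹ • ∑ i ∈ range L ×ˢ range M, (U ^ (i.1 + a i.2) * V ^ i.2) u) - h‖
          ≤ ε := by
  obtain ⟨g, hg1, hg2, hg3⟩ := exists_mean U u
  obtain ⟨h, hh1, hh2, hh3⟩ := exists_mean V g
  have hVU : ∀ x, V (U x) = U (V x) := fun x => by
    have := congrArg (fun W : H →ₗᵢ[ℂ] H => W x) hUV.eq
    exact this.symm
  have hVlU : ∀ (l : ℕ) (x : H), U ((V ^ l) x) = (V ^ l) (U x) := by
    intro l x
    have := congrArg (fun W : H →ₗᵢ[ℂ] H => W x) (hUV.pow_right l).eq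
    exact this
  have hUg : ∀ i : ℕ, (U ^ i) g = g := by
    intro i
    induction i with
    | zero => rfl
    | succ i ih =>
      rw [pow_succ]
      show (U ^ i) (U g) = g
      rw [hg1, ih]
  have hUh : U h = h := by
    have h1 : Tendsto (fun L : ℕ => U ((L : ℂ)⁻¹ • ∑ i ∈ range L, (V ^ i) g)) atTop (𝓝 (U h)) :=
      (U.continuous.tendsto _).comp hh3
    refine tendsto_nhds_unique h1 (hh3.congr fun L => ?_)
    rw [map_smul, map_sum]
    congr 1
    refine Finset.sum_congr rfl fun i _ => ?_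
    rw [hVlU, hg1]
  refine ⟨h, hUh, hh1, fun z hz1 hz2 => by rw [hh2 z hz2, hg2 z hz1], fun ε hε => ?_⟩
  obtain ⟨L1, hL1⟩ := (Metric.tendsto_atTop.1 hg3) (ε / 2) (by positivity)
  obtain ⟨M1, hM1⟩ := (Metric.tendsto_atTop.1 hh3) (ε / 2) (by positivity)
  refine ⟨max L1 1, fun L hL => ⟨max M1 1, fun M hM a => ?_⟩⟩
  have hL0 : 1 ≤ L := (le_max_right _ _).trans hL
  have hM0 : 1 ≤ M := (le_max_right _ _).trans hM
  have hMc : (M : ℂ) ≠ 0 := by exact_mod_cast (by omega : M ≠ 0)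
  have hMr : (0 : ℝ) < M := by exact_mod_cast (by omega : 0 < M)
  have h1 := hL1 L ((le_max_left _ _).trans hL)
  have h2 := hM1 M ((le_max_left _ _).trans hM)
  rw [dist_eq_norm] at h1 h2
  set A : H := (L : ℂ)⁻¹ • ∑ i ∈ range L, (U ^ i) u with hA
  have e1 : (((L : ℂ) * (M : ℂ))⁻¹ • ∑ i ∈ range L ×ˢ range M, (U ^ (i.1 + a i.2) * V ^ i.2) u) =
      (M : ℂ)⁻¹ • ∑ l ∈ range M, (U ^ a l) ((V ^ l) A) := by
    rw [sum_product_right, mul_inv, mul_comm, mul_smul, Finset.smul_sum]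
    congr 1
    refine Finset.sum_congr rfl fun l _ => ?_
    rw [hA, map_smul, map_smul, map_sum, map_sum]
    congr 1
    refine Finset.sum_congr rfl fun i _ => ?_
    have e2 : (U ^ (i + a l) * V ^ l : H →ₗᵢ[ℂ] H) = U ^ a l * (V ^ l * U ^ i) := by
      rw [(hUV.pow_pow i l).symm.eq, ← mul_assoc, add_comm, pow_add]
    rw [e2]
    rfl
  have e3 : (M : ℂ)⁻¹ • ∑ l ∈ range M, (U ^ a l) ((V ^ l) A) - h =
      (M : ℂ)⁻¹ • ∑ l ∈ range M, (U ^ a l) ((V ^ l) (A - g)) +
        ((M : ℂ)⁻¹ • ∑ l ∈ range M, (V ^ l) g - h) := by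
    have e4 : ∀ l : ℕ, (U ^ a l) ((V ^ l) (A - g)) = (U ^ a l) ((V ^ l) A) - (V ^ l) g := by
      intro l
      rw [map_sub, map_sub]
      congr 1
      have : (U ^ a l) ((V ^ l) g) = (V ^ l) ((U ^ a l) g) := by
        have := congrArg (fun W : H →ₗᵢ[ℂ] H => W g) (hUV.pow_pow (a l) l).eq
        exact this
      rw [this, hUg]
    simp only [e4, Finset.sum_sub_distrib, smul_sub]
    abel
  rw [e1, e3]
  have h3 : ‖(M : ℂ)⁻¹ • ∑ l ∈ range M, (U ^ a l) ((V ^ l) (A - g))‖ ≤ ‖A - g‖ := by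
    rw [norm_smul, norm_inv, Complex.norm_natCast]
    have h4 : ‖∑ l ∈ range M, (U ^ a l) ((V ^ l) (A - g))‖ ≤ M * ‖A - g‖ := by
      refine (norm_sum_le _ _).trans ?_
      simp only [norm_pow_apply, sum_const, card_range, nsmul_eq_mul, le_refl]
    calc (M : ℝ)⁻¹ * ‖∑ l ∈ range M, (U ^ a l) ((V ^ l) (A - g))‖ ≤ (M : ℝ)⁻¹ * (M * ‖A - g‖) := by
          gcongr
      _ = ‖A - g‖ := by field_simp
  refine (norm_add_le _ _).trans ?_
  linarith

end Hilbert


section Circle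

open Helper35.AG (Inv)
open Helper75.IP (Ext)

variable {μ : Measure Helper35.AG.Tor}

theorem preserving_set {T₀ : Helper35.AG.Tor → Helper35.AG.Tor} (hT : MeasurePreserving T₀ μ μ)
    {A : Set Helper35.AG.Tor} (hA : MeasurableSet A) (h : T₀ ⁻¹' A =ᵐ[μ] A) (c : ℝ≥0∞) :
    MeasurePreserving T₀ (c • μ.restrict A) (c • μ.restrict A) := by
  have h1 := (hT.restrict_preimage hA)
  rw [Measure.restrict_congr_set h] at h1
  exact h1.smul_measure c

/-- For an extreme measure invariant functions are constant. -/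
theorem ae_const [IsProbabilityMeasure μ] (hi : Inv μ) (hext : Ext μ) {h : Helper35.AG.Tor → ℂ}
    (hm : Measurable h) (h2 : ∀ᵐ x ∂μ, h ((2 : ℕ) • x) = h x)
    (h3 : ∀ᵐ x ∂μ, h ((3 : ℕ) • x) = h x) : ∃ c : ℂ, ∀ᵐ x ∂μ, h x = c := by
  obtain ⟨c, hc⟩ := Filter.exists_eventuallyEq_const_of_forall_separating (l := ae μ) (f := h)
    MeasurableSet (by
      intro U hU
      set A : Set Helper35.AG.Tor := h ⁻¹' U with hAdef
      have hA : MeasurableSet A := hm hU
      by_cases h0 : μ A = 0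
      · right
        rw [ae_iff]
        simp only [not_not]
        exact h0
      · left
        have hfin : (μ A)⁻¹ ≠ ⊤ := ENNReal.inv_ne_top.2 h0
        have e2 : (fun x : Helper35.AG.Tor => (2 : ℕ) • x) ⁻¹' A =ᵐ[μ] A := by
          filter_upwards [h2] with x hx
          apply propext
          show h ((2 : ℕ) • x) ∈ U ↔ h x ∈ U
          rw [hx]
        have e3 : (fun x : Helper35.AG.Tor => (3 : ℕ) • x) ⁻¹' A =ᵐ[μ] A := by
          filter_upwards [h3] with x hx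
          apply propext
          show h ((3 : ℕ) • x) ∈ U ↔ h x ∈ U
          rw [hx]
        have hp : IsProbabilityMeasure ((μ A)⁻¹ • μ.restrict A) := by
          refine ⟨?_⟩
          rw [Measure.smul_apply, Measure.restrict_apply_univ, smul_eq_mul]
          exact ENNReal.inv_mul_cancel h0 (measure_ne_top _ _)
        have hinv : Inv ((μ A)⁻¹ • μ.restrict A) :=
          ⟨preserving_set hi.two hA e2 _, preserving_set hi.three hA e3 _⟩
        have hle : (μ A)⁻¹ • μ.restrict A ≤ (μ A)⁻¹ • μ := by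
          rw [Measure.le_iff]
          intro s _
          rw [Measure.smul_apply, Measure.smul_apply, smul_eq_mul, smul_eq_mul]
          gcongr
          exact Measure.restrict_le_self
        have hEq := hext _ (μ A)⁻¹ hp hinv hfin hle
        have h4 : μ Aᶜ = 0 := by
          rw [← hEq, Measure.smul_apply, Measure.restrict_apply hA.compl]
          simp
        rw [ae_iff]
        exact h4)
  exact ⟨c, hc⟩

/-- **The mean ergodic theorem for strips.** -/
theorem strip_mean [IsProbabilityMeasure μ] (hi : Inv μ) (hext : Ext μ) (m : ℤ) (ε : ℝ)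
    (hε : 0 < ε) : ∃ L1 : ℕ, ∀ L, L1 ≤ L → ∃ M1 : ℕ, ∀ M, M1 ≤ M → ∀ q, ll M ≤ q →
      ∫ x, ‖bav (strip q M L) m x - ft μ m‖ ^ 2 ∂μ ≤ ε := by
  have hT2 : MeasurePreserving (T 2) μ μ := hi.two
  have hT3 : MeasurePreserving (T 3) μ μ := hi.three
  have hUV := Helper58.FX.St.commute_UU hT2 hT3
  obtain ⟨h, hU, hV, hin, hlim⟩ := strip_avg hUV (ev μ m)
  -- the limit is constant
  have a2 : ∀ᵐ x ∂μ, (h : Helper35.AG.Tor → ℂ) ((2 : ℕ) • x) = h x := by
    have h1 := Lp.coeFn_compMeasurePreserving h hT2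
    have h2 : (UU hT2 h : Lp ℂ 2 μ) = Lp.compMeasurePreserving (T 2) hT2 h := rfl
    rw [← h2, hU] at h1
    filter_upwards [h1] with x hx
    rw [hx]
    rfl
  have a3 : ∀ᵐ x ∂μ, (h : Helper35.AG.Tor → ℂ) ((3 : ℕ) • x) = h x := by
    have h1 := Lp.coeFn_compMeasurePreserving h hT3
    have h2 : (UU hT3 h : Lp ℂ 2 μ) = Lp.compMeasurePreserving (T 3) hT3 h := rfl
    rw [← h2, hV] at h1
    filter_upwards [h1] with x hx
    rw [hx]
    rfl
  obtain ⟨c, hc⟩ := ae_const hi hext (Lp.stronglyMeasurable h).measurable a2 a3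
  have hf1 : UU hT2 (ev μ 0) = ev μ 0 := by
    have := Helper58.FX.St.act_ev hT2 hT3 (1, 0) 0
    simpa [act] using this
  have hf2 : UU hT3 (ev μ 0) = ev μ 0 := by
    have := Helper58.FX.St.act_ev hT2 hT3 (0, 1) 0
    simpa [act] using this
  have hh : h = c • ev μ 0 := by
    refine Lp.ext ?_
    filter_upwards [hc, Lp.coeFn_smul c (ev μ 0), Helper58.FX.St.ev_coe (μ := μ) 0] with x h1 h2 h3
    rw [h1, h2, Pi.smul_apply, h3]
    simp
  have hcm : c = ft μ m := by
    have h1 := hin (ev μ 0) hf1 hf2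
    rw [hh, inner_smul_right, Helper58.FX.St.inner_ev, Helper58.FX.St.inner_ev, sub_zero,
      sub_zero] at h1
    rw [← h1]
    unfold ft
    simp
  -- the estimate
  have hs : 0 < Real.sqrt ε := Real.sqrt_pos.2 hε
  obtain ⟨L1, hL1⟩ := hlim (Real.sqrt ε) hs
  refine ⟨L1, fun L hL => ?_⟩
  obtain ⟨M1, hM1⟩ := hL1 L hL
  refine ⟨M1, fun M hM q hq => ?_⟩
  have h1 := hM1 M hM fun l => q - ll l
  have e1 : (((L : ℂ) * (M : ℂ))⁻¹ • ∑ i ∈ range L ×ˢ range M,
      (UU hT2 ^ (i.1 + (q - ll i.2)) * UU hT3 ^ i.2) (ev μ m)) - h =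
      ContinuousMap.toLp (E := ℂ) 2 μ ℂ ((((L : ℂ) * (M : ℂ))⁻¹ • ∑ i ∈ range L ×ˢ range M,
        fourier (sc (i.1 + (q - ll i.2), i.2) * m)) - c • fourier 0) := by
    rw [map_sub, map_smul, map_sum, map_smul, hh]
    congr 2
    refine Finset.sum_congr rfl fun i _ => ?_
    exact Helper58.FX.St.act_ev hT2 hT3 (i.1 + (q - ll i.2), i.2) m
  have e2 : ((((((L : ℂ) * (M : ℂ))⁻¹ • ∑ i ∈ range L ×ˢ range M,
      (UU hT2 ^ (i.1 + (q - ll i.2)) * UU hT3 ^ i.2) (ev μ m)) - h : Lp ℂ 2 μ)) :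
      Helper35.AG.Tor → ℂ) =ᵐ[μ] fun x => bav (strip q M L) m x - ft μ m := by
    rw [e1]
    refine (ContinuousMap.coeFn_toLp μ _).trans (Eventually.of_forall fun x => ?_)
    simp only [ContinuousMap.coe_sub, ContinuousMap.coe_smul, ContinuousMap.coe_sum, Pi.sub_apply,
      Pi.smul_apply, Finset.sum_apply, smul_eq_mul, fourier_zero, mul_one]
    rw [bav_strip q M L hq, hcm]
    congr 1
    rw [card_product, card_range, card_range, div_eq_inv_mul]
    push_cast
    congr 1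
    refine Finset.sum_congr rfl fun i hi' => ?_
    rw [Helper58.PW.fourier_nsmul']
    congr 2
    have hlt : i.2 < M := by
      rw [mem_product, mem_range, mem_range] at hi'
      exact hi'.2
    have hll : ll i.2 ≤ q := (Helper58.PW.ll_mono hlt.le).trans hq
    unfold sc Helper58.DW.sq
    have e5 : q + i.1 - ll i.2 = i.1 + (q - ll i.2) := by omega
    rw [e5]
    push_cast
    ring
  have e3 : ∫ x, ‖bav (strip q M L) m x - ft μ m‖ ^ 2 ∂μ =
      ‖(((L : ℂ) * (M : ℂ))⁻¹ • ∑ i ∈ range L ×ˢ range M,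
        (UU hT2 ^ (i.1 + (q - ll i.2)) * UU hT3 ^ i.2) (ev μ m)) - h‖ ^ 2 := by
    rw [← Helper58.FXP.H77.l2_sq]
    refine integral_congr_ae ?_
    filter_upwards [e2] with x hx
    rw [hx]
  rw [e3, ← Real.sq_sqrt hε.le]
  gcongr

end Circle

end Pool.Agent.Helper40.IP
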