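import Mathlib
import Pool.Agent.Helper40.IP.Strip
import Pool.Agent.Helper40.IP.Count

/-!
# Extreme invariant measures other than Lebesgue measure have entropy zero
-/

set_option autoImplicit false
open MeasureTheory Filter Topology Finset
open scoped ENNReal

namespace Pool.Agent.Helper40.IP

open Helper35.AG (Tor Inv idx ent)
open Helper75.IP (Ext)
open Helper75.LP (Half)
open Helper58.FX (ft)
open Helper58.DW (ll)
open Helper58.PW (bav strip two_point)

theorem preserving_volume (N : ℕ) (hN : N ≠ 0) :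
    MeasurePreserving (fun x : Tor => N • x) volume volume := by
  have hm : Measurable (fun x : Tor => N • x) := Helper17.TranslM.measurable_T N
  refine ⟨hm, ?_⟩
  have hp : IsProbabilityMeasure ((volume : Measure Tor).map (fun x : Tor => N • x)) :=
    Measure.isProbabilityMeasure_map hm.aemeasurable
  apply Helper17.TranslM.eq_of_fourier
  intro m
  rw [integral_map hm.aemeasurable (fourier m).continuous.aestronglyMeasurable]
  simp only [Helper58.PW.fourier_nsmul']
  by_cases h0 : m = 0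
  · subst h0
    simp
  · rw [Helper17.TranslM.integral_fourier_vol h0, Helper17.TranslM.integral_fourier_vol]
    exact mul_ne_zero h0 (by exact_mod_cast hN)

theorem inv_volume : Inv (volume : Measure Tor) :=
  ⟨preserving_volume 2 (by norm_num), preserving_volume 3 (by norm_num)⟩

/-- A measure which is close to measures above one half of Lebesgue measure. -/
theorem half_of_close {μ : Measure Tor} [IsProbabilityMeasure μ]
    (h : ∀ n : ℕ, ∃ ν : Measure Tor, Half ν ∧ ∀ m : ℤ, |m| ≤ n →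
      ‖ft μ m - ∫ y, (fourier m y : ℂ) ∂ν‖ < 2 / (n + 1)) : Half μ := by
  choose ν hν hclose using h
  obtain ⟨νs, hνs⟩ : ∃ νs : ℕ → ProbabilityMeasure Tor, νs = fun n => ⟨ν n, (hν n).1⟩ := ⟨_, rfl⟩
  have hνs' : ∀ n, ((νs n : ProbabilityMeasure Tor) : Measure Tor) = ν n := by
    intro n
    rw [hνs]
    rfl
  obtain ⟨U, hU⟩ : ∃ U : Ultrafilter ℕ, (U : Filter ℕ) ≤ atTop :=
    ⟨hyperfilter ℕ, Nat.hyperfilter_le_atTop⟩
  obtain ⟨ρ, -, hρ⟩ := isCompact_univ.ultrafilter_le_nhds (U.map νs) (by simp)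
  have hl : Tendsto νs U (𝓝 ρ) := hρ
  have hH : Half (ρ : Measure Tor) :=
    Pool.Agent.Helper40.LPA.half_of_tendsto (fun n => by rw [hνs']; exact hν n) hl
  have hint : ∀ m : ℤ, Tendsto (fun j => ∫ y, (fourier m y : ℂ) ∂(ν j)) U
      (𝓝 (∫ y, (fourier m y : ℂ) ∂(ρ : Measure Tor))) := by
    intro m
    have h5 := (ProbabilityMeasure.tendsto_iff_forall_integral_rclike_tendsto ℂ).1 hl
      (BoundedContinuousFunction.mkOfCompact (fourier m))
    simp only [BoundedContinuousFunction.mkOfCompact_apply, hνs'] at h5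
    exact h5
  have hlim : ∀ m : ℤ, Tendsto (fun j => ∫ y, (fourier m y : ℂ) ∂(ν j)) U (𝓝 (ft μ m)) := by
    intro m
    have h1 : Tendsto (fun n : ℕ => (2 : ℝ) / (n + 1)) U (𝓝 0) := by
      have h2 := (tendsto_one_div_add_atTop_nhds_zero_nat (𝕜 := ℝ)).const_mul 2
      rw [mul_zero] at h2
      refine (h2.congr fun n => ?_).mono_left hU
      ring
    rw [tendsto_iff_norm_sub_tendsto_zero]
    refine squeeze_zero' (Eventually.of_forall fun n => norm_nonneg _) ?_ h1
    filter_upwards [hU (eventually_ge_atTop m.natAbs)] with n hn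
    rw [norm_sub_rev]
    refine (hclose n m ?_).le
    rw [Int.abs_eq_natAbs]
    exact_mod_cast hn
  have hEq : (ρ : Measure Tor) = μ := by
    apply Helper17.TranslM.eq_of_fourier
    intro m
    exact tendsto_nhds_unique (hint m) (hlim m)
  rw [hEq] at hH
  exact hH

/-- The phases have small mass at some quality. -/
theorem small_phases {μ : Measure Tor} [IsProbabilityMeasure μ] (hi : Inv μ) (hext : Ext μ)
    (hne : μ ≠ volume) (δ : ℝ) (hδ : 0 < δ) : ∃ n L M : ℕ,
      (∀ q, ll M ≤ q → ∀ x y : Tor, 1 / 2 ≤ 2 ^ q * ‖x - y‖ → 2 ^ q * ‖x - y‖ ≤ 1 →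
        x ∈ Helper58.PW.UU n (strip q M L) ∨ y ∈ Helper58.PW.UU n (strip q M L)) ∧
      ∀ q, ll M ≤ q → μ.real (Helper58.PW.UU n (strip q M L)) ≤ δ := by
  classical
  by_contra hcon
  push Not at hcon
  have hhalf : Half μ := by
    refine half_of_close fun n => ?_
    set I : Finset ℤ := Finset.Icc (-(n : ℤ)) n with hI
    have hcard : (0 : ℝ) < I.card := by
      have : 0 < I.card := Finset.card_pos.2 ⟨0, by rw [hI, Finset.mem_Icc]; omega⟩
      exact_mod_cast this
    set ε : ℝ := δ / (2 * I.card * (n + 1) ^ 2) with hε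
    have hε0 : 0 < ε := by positivity
    obtain ⟨L0, h0⟩ := two_point n
    choose L1 hL1 using fun m : ℤ => strip_mean hi hext m ε hε0
    set L : ℕ := L0 + ∑ m ∈ I, L1 m with hL
    obtain ⟨M0, hM0⟩ := h0 L (Nat.le_add_right _ _)
    have hLm : ∀ m ∈ I, L1 m ≤ L := fun m hm =>
      (Finset.single_le_sum (fun _ _ => Nat.zero_le _) hm).trans (Nat.le_add_left _ _)
    have h1 : ∀ m : ℤ, ∃ M1 : ℕ, m ∈ I → ∀ M, M1 ≤ M → ∀ q, ll M ≤ q →
        ∫ x, ‖bav (strip q M L) m x - ft μ m‖ ^ 2 ∂μ ≤ ε := by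
      intro m
      by_cases hm : m ∈ I
      · obtain ⟨M1, hM1⟩ := hL1 m L (hLm m hm)
        exact ⟨M1, fun _ => hM1⟩
      · exact ⟨0, fun h => absurd h hm⟩
    choose M1 hM1 using h1
    set M : ℕ := M0 + ∑ m ∈ I, M1 m with hM
    have hMm : ∀ m ∈ I, M1 m ≤ M := fun m hm =>
      (Finset.single_le_sum (fun _ _ => Nat.zero_le _) hm).trans (Nat.le_add_left _ _)
    obtain ⟨q, hq, hbig⟩ := hcon n L M (hM0 M (Nat.le_add_right _ _))
    -- the exceptional set
    set E : ℤ → Set Tor := fun m =>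
      {x | (1 / ((n : ℝ) + 1)) ^ 2 ≤ ‖bav (strip q M L) m x - ft μ m‖ ^ 2} with hE
    have hEm : ∀ m ∈ I, μ.real (E m) ≤ ε * (n + 1) ^ 2 := by
      intro m hm
      have hcont : Continuous fun x => ‖bav (strip q M L) m x - ft μ m‖ ^ 2 :=
        ((Helper58.PW.continuous_bav _ _).sub continuous_const).norm.pow 2
      have h2 := mul_meas_ge_le_integral_of_nonneg (μ := μ)
        (f := fun x => ‖bav (strip q M L) m x - ft μ m‖ ^ 2)
        (Eventually.of_forall fun x => by positivity)
        (Helper17.TranslM.integrable_cont μ hcont) ((1 / ((n : ℝ) + 1)) ^ 2)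
      have h3 := hM1 m hm M (hMm m hm) q hq
      have h4 := h2.trans h3
      have hn : (0 : ℝ) < (n + 1) ^ 2 := by positivity
      have h5 : (1 / ((n : ℝ) + 1)) ^ 2 * μ.real (E m) ≤ ε := h4
      rw [div_pow, one_pow, one_div, inv_mul_le_iff₀ hn] at h5
      linarith
    have hU : μ.real (⋃ m ∈ I, E m) ≤ δ / 2 := by
      refine (measureReal_biUnion_finset_le I E).trans ?_
      refine (Finset.sum_le_sum hEm).trans ?_
      rw [Finset.sum_const, nsmul_eq_mul, hε]
      apply le_of_eq
      field_simp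
    obtain ⟨x, hx1, hx2⟩ : ∃ x, x ∈ Helper58.PW.UU n (strip q M L) ∧ x ∉ ⋃ m ∈ I, E m := by
      by_contra hno
      push Not at hno
      have h3 : μ.real (Helper58.PW.UU n (strip q M L)) ≤ μ.real (⋃ m ∈ I, E m) :=
        measureReal_mono hno (measure_ne_top _ _)
      linarith
    obtain ⟨ν, hν, hνc⟩ := hx1
    refine ⟨ν, hν, fun m hm => ?_⟩
    have hmI : m ∈ I := by
      rw [hI, Finset.mem_Icc]
      exact abs_le.1 hm
    have h4 : ‖bav (strip q M L) m x - ft μ m‖ < 1 / (n + 1) := by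
      simp only [Set.mem_iUnion, not_exists] at hx2
      have h5 := hx2 m hmI
      rw [hE] at h5
      simp only [Set.mem_ofPred_eq, not_le] at h5
      exact lt_of_pow_lt_pow_left₀ 2 (by positivity) h5
    have h6 := hνc m hm
    have e : ft μ m - ∫ y, (fourier m y : ℂ) ∂ν = (bav (strip q M L) m x -
        ∫ y, (fourier m y : ℂ) ∂ν) - (bav (strip q M L) m x - ft μ m) := by ring
    rw [e]
    refine (norm_sub_le _ _).trans_lt ?_
    have e2 : (2 : ℝ) / (n + 1) = 1 / (n + 1) + 1 / (n + 1) := by ring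
    rw [e2]
    exact add_lt_add h6 h4
  exact hne (hext volume 2 inferInstance inv_volume (by norm_num) hhalf.2).symm

/-- **Z**: Rudolph's theorem in the form needed. -/
theorem zero_ent {μ : Measure Tor} [IsProbabilityMeasure μ] (hμ : Inv μ) (hext : Ext μ)
    (hne : μ ≠ volume) : Tendsto (fun K : ℕ => ent μ K / K) atTop (𝓝 0) := by
  have hnn : ∀ K : ℕ, 0 ≤ ent μ K := fun K => Finset.sum_nonneg fun i _ =>
    Real.negMulLog_nonneg measureReal_nonneg measureReal_le_one
  rw [Metric.tendsto_atTop]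
  intro η hη
  -- a small δ
  have hcont : ContinuousAt (fun δ : ℝ => δ * Real.log 5 + Real.negMulLog δ - Real.log (1 - δ)) 0 := by
    have h1 : ContinuousAt (fun δ : ℝ => Real.log (1 - δ)) 0 := by
      refine ContinuousAt.log (by fun_prop) (by norm_num)
    exact ((continuousAt_id.mul continuousAt_const).add Real.continuous_negMulLog.continuousAt).sub h1
  have hlim := hcont.tendsto
  simp only [zero_mul, Real.negMulLog_zero, sub_zero, Real.log_one, add_zero] at hlim
  obtain ⟨ρ, hρ, hball⟩ := (Metric.tendsto_nhds_nhds.1 hlim) (η / 2) (by positivity)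
  set δ : ℝ := min (ρ / 2) (1 / 2) with hδ
  have hδ0 : 0 < δ := by positivity
  have hδ1 : δ < 1 := lt_of_le_of_lt (min_le_right _ _) (by norm_num)
  have hδs : δ * Real.log 5 + Real.negMulLog δ - Real.log (1 - δ) < η / 2 := by
    have h1 := hball (x := δ) (by
      rw [Real.dist_eq, sub_zero, abs_of_pos hδ0]
      exact lt_of_le_of_lt (min_le_left _ _) (by linarith))
    rw [Real.dist_eq, sub_zero] at h1
    exact (le_abs_self _).trans_lt h1
  obtain ⟨n, L, M, h1, h2⟩ := small_phases hμ hext hne δ hδ0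
  have key := entropy_bound μ (fun q => Helper58.PW.UU n (strip q M L))
    (fun q => (Helper58.PW.isOpen_UU n _).measurableSet) (ll M) h1 hδ0 hδ1 h2
  set C : ℝ := Real.log 6 + (ll M : ℕ) * Real.log 2 with hC
  have hC0 : 0 ≤ C := by
    have h3 := Real.log_nonneg (by norm_num : (1 : ℝ) ≤ 6)
    have h4 := Real.log_nonneg (by norm_num : (1 : ℝ) ≤ 2)
    positivity
  obtain ⟨K0, hK0⟩ := exists_nat_gt (2 * C / η)
  refine ⟨max (ll M) (K0 + 1), fun K hK => ?_⟩
  have hK1 : ll M ≤ K := (le_max_left _ _).trans hK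
  have hK2 : K0 + 1 ≤ K := (le_max_right _ _).trans hK
  have hKr : (0 : ℝ) < K := by exact_mod_cast (by omega : 0 < K)
  have hK0' : (K0 : ℝ) ≤ K := by exact_mod_cast (by omega : K0 ≤ K)
  rw [Real.dist_eq, sub_zero, abs_of_nonneg (div_nonneg (hnn K) hKr.le), div_lt_iff₀ hKr]
  have h5 := key K hK1
  have h6 : C ≤ η / 2 * K := by
    rw [div_lt_iff₀ hη] at hK0
    nlinarith
  have h7 : δ * (Real.log 5 - Real.log δ) - Real.log (1 - δ) < η / 2 := by
    have : Real.negMulLog δ = - δ * Real.log δ := rfl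
    rw [this] at hδs
    linarith
  have h8 : (K : ℝ) * (δ * (Real.log 5 - Real.log δ) - Real.log (1 - δ)) < K * (η / 2) :=
    mul_lt_mul_of_pos_left h7 hKr
  linarith

end Pool.Agent.Helper40.IP
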